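import Mathlib

/-! Definitions for MP_914893_an: the diametral diameter two property and its weak-star version. -/

namespace Pool.Agent.Work.MP_914893_an

variable (X : Type*) [NormedAddCommGroup X] [NormedSpace ℝ X]

/-- `W` is a relatively weakly open subset of the closed unit ball of `X`. -/
def IsRelWeakOpen (W : Set X) : Prop :=
  ∃ U : Set (WeakSpace ℝ X), IsOpen U ∧
    W = {x : X | ‖x‖ ≤ 1 ∧ toWeakSpace ℝ X x ∈ U}

/-- `W` is a relatively weak-star open subset of the closed unit ball of the dual of `X`. -/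
def IsRelWeakStarOpen (W : Set (StrongDual ℝ X)) : Prop :=
  ∃ U : Set (WeakDual ℝ X), IsOpen U ∧
    W = {f : StrongDual ℝ X | ‖f‖ ≤ 1 ∧ StrongDual.toWeakDual f ∈ U}

/-- The diametral diameter two property of `X`. -/
def DD2P : Prop :=
  ∀ W : Set X, IsRelWeakOpen X W → W.Nonempty →
    ∀ x ∈ W, ‖x‖ = 1 → ∀ ε : ℝ, 0 < ε → ∃ y ∈ W, ‖x - y‖ > 2 - ε

/-- The weak-star diametral diameter two property of the dual of `X`. -/
def WeakStarDD2P : Prop :=
  ∀ W : Set (StrongDual ℝ X), IsRelWeakStarOpen X W → W.Nonempty →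
    ∀ f ∈ W, ‖f‖ = 1 → ∀ ε : ℝ, 0 < ε → ∃ g ∈ W, ‖f - g‖ > 2 - ε

end Pool.Agent.Work.MP_914893_an
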