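import Mathlib
import Pool.Agent.Work.MP_914893_an.Defs

-- merged part: Pool.Agent.Work.MP_914893_an.Slices
section
/-! Slices form a neighbourhood base at an extreme point of a compact convex set. -/

open Set Metric

namespace Pool.Agent.Work.MP_914893_an

variable {V : Type*} [NormedAddCommGroup V] [NormedSpace ℝ V]

theorem isCompact_convexJoin {s t : Set V} (hs : IsCompact s) (ht : IsCompact t) :
    IsCompact (convexJoin ℝ s t) := by
  have : convexJoin ℝ s t =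
      (fun p : (V × V) × ℝ => (1 - p.2) • p.1.1 + p.2 • p.1.2) '' ((s ×ˢ t) ×ˢ Icc 0 1) := by
    ext z
    simp only [mem_convexJoin, segment_eq_image, mem_image, mem_prod, Prod.exists]
    constructor
    · rintro ⟨a, ha, b, hb, θ, hθ, rfl⟩
      exact ⟨a, b, θ, ⟨⟨ha, hb⟩, hθ⟩, rfl⟩
    · rintro ⟨a, b, θ, ⟨⟨ha, hb⟩, hθ⟩, rfl⟩
      exact ⟨a, ha, b, hb, θ, hθ, rfl⟩
  rw [this]
  exact ((hs.prod ht).prod isCompact_Icc).image (by fun_prop)

theorem exists_convex_union {K : Set V} (hK : Convex ℝ K) {h : V} (hh : h ∈ K.extremePoints ℝ)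
    {s t : Set V} (hs : IsCompact s) (hs' : Convex ℝ s) (hsK : s ⊆ K) (hsh : h ∉ s)
    (ht : IsCompact t) (ht' : Convex ℝ t) (htK : t ⊆ K) (hth : h ∉ t) :
    ∃ D, IsCompact D ∧ Convex ℝ D ∧ D ⊆ K ∧ h ∉ D ∧ s ⊆ D ∧ t ⊆ D := by
  rcases s.eq_empty_or_nonempty with rfl | hsn
  · exact ⟨t, ht, ht', htK, hth, empty_subset _, Subset.rfl⟩
  rcases t.eq_empty_or_nonempty with rfl | htn
  · exact ⟨s, hs, hs', hsK, hsh, Subset.rfl, empty_subset _⟩
  refine ⟨convexJoin ℝ s t, isCompact_convexJoin hs ht, hs'.convexJoin ht',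
    convexJoin_subset hsK htK hK, ?_, subset_convexJoin_left htn, subset_convexJoin_right hsn⟩
  intro hm
  obtain ⟨a, ha, b, hb, hab⟩ := mem_convexJoin.1 hm
  rcases (mem_extremePoints_iff_forall_segment.1 hh).2 a (hsK ha) b (htK hb) hab with rfl | rfl
  · exact hsh ha
  · exact hth hb

theorem exists_slice {K : Set V} (hKc : IsCompact K) (hK : Convex ℝ K) {h : V}
    (hh : h ∈ K.extremePoints ℝ) {τ : ℝ} (hτ : 0 < τ) :
    ∃ (a : StrongDual ℝ V) (α : ℝ), α < a h ∧ ∀ k ∈ K, α < a k → dist k h < τ := by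
  have hC : IsCompact (K \ ball h τ) := hKc.diff isOpen_ball
  have key : ∃ D, IsCompact D ∧ Convex ℝ D ∧ D ⊆ K ∧ h ∉ D ∧ K \ ball h τ ⊆ D := by
    refine hC.induction_on
      (p := fun C => ∃ D, IsCompact D ∧ Convex ℝ D ∧ D ⊆ K ∧ h ∉ D ∧ C ∩ K ⊆ D) ?_ ?_ ?_ ?_
      |>.imp fun D hD => ⟨hD.1, hD.2.1, hD.2.2.1, hD.2.2.2.1,
        fun k hk => hD.2.2.2.2 ⟨hk, hk.1⟩⟩
    · exact ⟨∅, isCompact_empty, convex_empty, empty_subset _, notMem_empty _, by simp⟩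
    · rintro s t hst ⟨D, h1, h2, h3, h4, h5⟩
      exact ⟨D, h1, h2, h3, h4, (inter_subset_inter_left _ hst).trans h5⟩
    · rintro s t ⟨D, h1, h2, h3, h4, h5⟩ ⟨D', h1', h2', h3', h4', h5'⟩
      obtain ⟨E, e1, e2, e3, e4, e5, e6⟩ := exists_convex_union hK hh h1 h2 h3 h4 h1' h2' h3' h4'
      refine ⟨E, e1, e2, e3, e4, ?_⟩
      rw [union_inter_distrib_right]
      exact union_subset (h5.trans e5) (h5'.trans e6)
    · intro c hc
      refine ⟨closedBall c (τ / 2),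
        mem_nhdsWithin_of_mem_nhds (closedBall_mem_nhds c (half_pos hτ)),
        closedBall c (τ / 2) ∩ K, hKc.inter_left isClosed_closedBall,
        (convex_closedBall _ _).inter hK, inter_subset_right, ?_, Subset.rfl⟩
      rintro ⟨h1, -⟩
      have h2 := hc.2
      rw [mem_ball, not_lt, dist_comm] at h2
      rw [mem_closedBall] at h1
      linarith only [hτ, h1, h2]
  obtain ⟨D, h1, h2, -, h4, h5⟩ := key
  obtain ⟨a, α, ha, hα⟩ := geometric_hahn_banach_closed_point h2 h1.isClosed h4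
  refine ⟨a, α, hα, fun k hk hk' => ?_⟩
  by_contra hcon
  exact lt_asymm hk' (ha k (h5 ⟨hk, hcon⟩))

/-- A point of an exposed face is approximated by a convex combination of points of that face,
each of which lies in a small slice of the whole set. -/
theorem exists_slices {K : Set V} (hKc : IsCompact K) (hK : Convex ℝ K) (a₀ : StrongDual ℝ V)
    {q : V} (hq : q ∈ K) (hq' : ∀ k ∈ K, a₀ k ≤ a₀ q) {τ : ℝ} (hτ : 0 < τ) :
    ∃ (κ : Type) (_ : Fintype κ) (w : κ → ℝ) (h : κ → V) (a : κ → StrongDual ℝ V) (α : κ → ℝ),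
      (∀ i, 0 ≤ w i) ∧ ∑ i, w i = 1 ∧ (∀ i, h i ∈ K) ∧ (∀ i, a₀ q ≤ a₀ (h i)) ∧
      dist (∑ i, w i • h i) q < τ ∧ (∀ i, α i < a i (h i)) ∧
      ∀ i, ∀ k ∈ K, α i < a i k → dist k (h i) < τ := by
  have hF := ContinuousLinearMap.toExposed.isExposed (l := a₀) (A := K)
  have hqF : q ∈ a₀.toExposed K := ⟨hq, hq'⟩
  rw [← closure_convexHull_extremePoints (hF.isCompact hKc) (hF.convex hK)] at hqF
  obtain ⟨q', hq1, hq2⟩ := Metric.mem_closure_iff.1 hqF τ hτ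
  obtain ⟨κ, _, w, h, hw0, hw1, hh, rfl⟩ := mem_convexHull_iff_exists_fintype.1 hq1
  have hh' : ∀ i, h i ∈ K.extremePoints ℝ := fun i =>
    hF.isExtreme.extremePoints_subset_extremePoints (hh i)
  choose a α h1 h2 using fun i => exists_slice hKc hK (hh' i) hτ
  exact ⟨κ, inferInstance, w, h, a, α, hw0, hw1, fun i => (hh' i).1,
    fun i => (hh i).1.2 q hq, by rwa [dist_comm], h1, h2⟩

end Pool.Agent.Work.MP_914893_an
end

-- merged part: Pool.Agent.Work.MP_914893_an.Step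
section
/-! The iteration argument for a norming dual pair. -/

open Set Metric

namespace Pool.Agent.Work.MP_914893_an

variable {X Y : Type*} [NormedAddCommGroup X] [NormedSpace ℝ X] [NormedAddCommGroup Y]
  [NormedSpace ℝ Y]

/-- A bilinear pairing in which each space norms the other. -/
structure Norming (B : X →ₗ[ℝ] Y →ₗ[ℝ] ℝ) : Prop where
  le : ∀ x y, B x y ≤ ‖x‖ * ‖y‖
  left : ∀ x, ∀ σ > 0, ∃ y, ‖y‖ ≤ 1 ∧ ‖x‖ - σ < B x y
  right : ∀ y, ∀ σ > 0, ∃ x, ‖x‖ ≤ 1 ∧ ‖y‖ - σ < B x y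

theorem Norming.flip {B : X →ₗ[ℝ] Y →ₗ[ℝ] ℝ} (h : Norming B) : Norming B.flip where
  le y x := by rw [mul_comm]; exact h.le x y
  left := h.right
  right := h.left

theorem Norming.abs_le {B : X →ₗ[ℝ] Y →ₗ[ℝ] ℝ} (h : Norming B) (x : X) (y : Y) :
    |B x y| ≤ ‖x‖ * ‖y‖ := by
  refine _root_.abs_le.2 ⟨?_, h.le x y⟩
  have := h.le (-x) y
  rw [map_neg, LinearMap.neg_apply, norm_neg] at this
  linarith

theorem Norming.abs_le_left {B : X →ₗ[ℝ] Y →ₗ[ℝ] ℝ} (h : Norming B) (x : X) {y : Y}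
    (hy : ‖y‖ ≤ 1) : |B x y| ≤ ‖x‖ :=
  (h.abs_le x y).trans (mul_le_of_le_one_right (norm_nonneg _) hy)

theorem Norming.abs_le_one {B : X →ₗ[ℝ] Y →ₗ[ℝ] ℝ} (h : Norming B) {x : X} {y : Y}
    (hx : ‖x‖ ≤ 1) (hy : ‖y‖ ≤ 1) : |B x y| ≤ 1 :=
  (h.abs_le_left x hy).trans hx

/-- Every point of the unit sphere has almost diametral points in each weak neighbourhood. -/
def SuperDelta (B : X →ₗ[ℝ] Y →ₗ[ℝ] ℝ) : Prop :=
  ∀ x : X, ‖x‖ = 1 → ∀ (s : Set Y), s.Finite → ∀ σ > 0,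
    ∃ x' : X, ‖x'‖ ≤ 1 ∧ (∀ y ∈ s, |B x' y - B x y| < σ) ∧ 2 - σ < ‖x - x'‖

variable {B : X →ₗ[ℝ] Y →ₗ[ℝ] ℝ}

theorem one_step (hB : Norming B) (hD : SuperDelta B) {x xj : X} {z : Y} (hx : ‖x‖ ≤ 1)
    (hxj : ‖xj‖ ≤ 1) (hz : ‖z‖ ≤ 1) {η α β : ℝ} (hη : 0 < η) (hβ : 0 < β) (hη1 : η ≤ 1 / 4)
    (hηβ : 16 * η ≤ β) (h1 : 1 - η < B x z) (h2 : α + β < B xj z) (Φ : Set Y) (hΦ : Φ.Finite)
    (hΦ1 : ∀ φ ∈ Φ, ‖φ‖ ≤ 1) :
    ∃ (x' : X) (γ : Y), ‖x'‖ ≤ 1 ∧ ‖γ‖ ≤ 1 ∧ B x' γ < -1 + η ∧ α < B xj γ ∧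
      ∀ φ ∈ Φ, |B x' φ - B x φ| < 2 * η + 16 * η / β := by
  set s := 4 * η / β with hs
  have hs0 : 0 < s := by positivity
  have hsβ : s * β = 4 * η := by rw [hs]; field_simp
  have hs1 : s ≤ 1 / 4 := by
    rw [hs, div_le_iff₀ hβ]; linarith only [hηβ]
  set u := (1 - s) • x + s • xj with hu
  have hBu : ∀ y, B u y = (1 - s) * B x y + s * B xj y := fun y => by simp [hu]
  have hN1 : ‖u‖ ≤ 1 := by
    calc ‖u‖ ≤ ‖(1 - s) • x‖ + ‖s • xj‖ := norm_add_le _ _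
      _ = (1 - s) * ‖x‖ + s * ‖xj‖ := by
        rw [norm_smul, norm_smul, Real.norm_of_nonneg (by linarith only [hη, hη1, hs1]), Real.norm_of_nonneg hs0.le]
      _ ≤ (1 - s) * 1 + s * 1 := by gcongr; linarith only [hη, hη1, hs1]
      _ = 1 := by ring
  have hN2 : (1 - s) * B x z + s * B xj z ≤ ‖u‖ := by
    rw [← hBu]; exact (le_abs_self _).trans (hB.abs_le_left u hz)
  have hxjz := (abs_le.1 (hB.abs_le_one hxj hz)).1
  have hN3 : 1 - η - 2 * s ≤ ‖u‖ := by linarith only [hN2, hη, h1, hs0, hη1, hs1, hxjz, mul_pos_of_neg_of_neg (Mathlib.Tactic.Linarith.sub_neg_of_lt hη) (Mathlib.Tactic.Linarith.sub_neg_of_lt h1), mul_pos_of_neg_of_neg (Mathlib.Tactic.Linarith.sub_neg_of_lt hη) (Mathlib.Tactic.Linarith.sub_neg_of_lt hs0), mul_nonneg_of_nonpos_of_nonpos (Mathlib.Tactic.Linarith.sub_nonpos_of_le hη1) (le_of_lt (Mathlib.Tactic.Linarith.sub_neg_of_lt h1)), mul_nonneg_of_nonpos_of_nonpos (le_of_lt (Mathlib.Tactic.Linarith.sub_neg_of_lt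 h1)) (Mathlib.Tactic.Linarith.sub_nonpos_of_le hs1), mul_nonneg_of_nonpos_of_nonpos (le_of_lt (Mathlib.Tactic.Linarith.sub_neg_of_lt hs0)) (Mathlib.Tactic.Linarith.sub_nonpos_of_le hxjz)]
  have hN0 : 0 < ‖u‖ := by linarith only [hη, hη1, hs1, hN3]
  set u' := ‖u‖⁻¹ • u with hu'
  have hu'1 : ‖u'‖ = 1 := norm_smul_inv_norm (norm_pos_iff.1 hN0)
  have huu' : u = ‖u‖ • u' := by rw [hu', smul_inv_smul₀ hN0.ne']
  obtain ⟨x', hx'1, hx'2, hx'3⟩ := hD u' hu'1 Φ hΦ (η / 2) (half_pos hη)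
  obtain ⟨γ, hγ1, hγ2⟩ := hB.left (u' - x') (η / 2) (half_pos hη)
  rw [map_sub, LinearMap.sub_apply] at hγ2
  have e1 := abs_le.1 (hB.abs_le_one hu'1.le hγ1)
  have e2 := abs_le.1 (hB.abs_le_one hx'1 hγ1)
  have e3 := abs_le.1 (hB.abs_le_one hx hγ1)
  refine ⟨x', γ, hx'1, hγ1, by linarith only [hx'3, hγ2, e1], ?_, fun φ hφ => ?_⟩
  · have e4 : B u γ = ‖u‖ * B u' γ := by
      conv_lhs => rw [huu']
      simp
    have e5 : ‖u‖ - η ≤ B u γ := by rw [e4]; (refine le_of_not_gt fun h_nl => ?_; linarith only [h_nl, e2, hη, hx'3, hγ2, hη1, hN1, e1, mul_pos_of_neg_of_neg (Mathlib.Tactic.Linarith.sub_neg_of_lt hη) (Mathlib.Tactic.Linarith.sub_neg_of_lt hx'3), mul_pos_of_neg_of_neg (Mathlib.Tactic.Linarith.sub_neg_of_lt hη) (Mathlib.Tactic.Linarith.sub_neg_of_lt hγ2), mul_pos_of_neg_of_neg (Mathlib.Tactic.Linarith.sub_neg_of_lt hη) (Mathlib.Tactic.Linarith.sub_neg_of_lt h_nl), mul_nonneg_of_nonpos_of_nonpos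 (Mathlib.Tactic.Linarith.sub_nonpos_of_le hη1) (le_of_lt (Mathlib.Tactic.Linarith.sub_neg_of_lt hx'3)), mul_nonneg_of_nonpos_of_nonpos (Mathlib.Tactic.Linarith.sub_nonpos_of_le hη1) (le_of_lt (Mathlib.Tactic.Linarith.sub_neg_of_lt hγ2)), mul_nonneg_of_nonpos_of_nonpos (Mathlib.Tactic.Linarith.sub_nonpos_of_le hη1) (le_of_lt (Mathlib.Tactic.Linarith.sub_neg_of_lt h_nl)), mul_nonneg_of_nonpos_of_nonpos (Mathlib.Tactic.Linarith.sub_nonpos_of_le hN1) (Mathlib.Tactic.Linarith.sub_nonpos_of_le e1.right)])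
    rw [hBu] at e5
    have e6 : s * α < s * B xj γ := by (refine lt_of_not_ge fun h_nl => ?_; linarith only [h_nl, hsβ, hη, hηβ, h1, h2, hβ, hN2, e3, e5, mul_pos_of_neg_of_neg (Mathlib.Tactic.Linarith.sub_neg_of_lt hη) (Mathlib.Tactic.Linarith.sub_neg_of_lt hη), mul_nonneg_of_nonpos_of_nonpos (le_of_lt (Mathlib.Tactic.Linarith.sub_neg_of_lt hη)) (Mathlib.Tactic.Linarith.sub_nonpos_of_le hηβ), mul_pos_of_neg_of_neg (Mathlib.Tactic.Linarith.sub_neg_of_lt hη) (Mathlib.Tactic.Linarith.sub_neg_of_lt h1), mul_pos_of_neg_of_neg (Mathlib.Tactic.Linarith.sub_neg_of_lt hη) (Mathlib.Tactic.Linarith.sub_neg_of_lt h2), Mathlib.Tactic.Linarith.mul_zero_eq (Mathlib.Tactic.Linarith.sub_neg_of_lt hη) (sub_eq_zero_of_eq hsβ), Mathlib.Tactic.Linarith.mul_zero_eq (Mathlib.Tactic.Linarith.sub_neg_of_lt hβ) (sub_eq_zero_of_eq hsβ), mul_nonneg_of_nonpos_of_nonpos (le_of_lt (Mathlib.Tactic.Linarith.sub_neg_of_lt hβ)) (Mathlib.Tactic.Linarith.sub_nonpos_of_le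 hN2), mul_nonneg_of_nonpos_of_nonpos (le_of_lt (Mathlib.Tactic.Linarith.sub_neg_of_lt hβ)) (Mathlib.Tactic.Linarith.sub_nonpos_of_le e3.right), mul_nonneg_of_nonpos_of_nonpos (le_of_lt (Mathlib.Tactic.Linarith.sub_neg_of_lt hβ)) (Mathlib.Tactic.Linarith.sub_nonpos_of_le e5), mul_nonneg_of_nonpos_of_nonpos (le_of_lt (Mathlib.Tactic.Linarith.sub_neg_of_lt hβ)) (Mathlib.Tactic.Linarith.sub_nonpos_of_le h_nl), mul_nonneg_of_nonpos_of_nonpos (Mathlib.Tactic.Linarith.sub_nonpos_of_le hηβ) (le_of_lt (Mathlib.Tactic.Linarith.sub_neg_of_lt h1)), mul_nonneg_of_nonpos_of_nonpos (Mathlib.Tactic.Linarith.sub_nonpos_of_le hηβ) (Mathlib.Tactic.Linarith.sub_nonpos_of_le e3.right), Mathlib.Tactic.Linarith.mul_zero_eq (Mathlib.Tactic.Linarith.sub_neg_of_lt h1) (sub_eq_zero_of_eq hsβ), Mathlib.Tactic.Linarith.mul_zero_eq (Mathlib.Tactic.Linarith.sub_neg_of_lt h2) (sub_eq_zero_of_eq hsβ), Mathlib.Tactic.Linarith.zero_mul_eq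 (sub_eq_zero_of_eq hsβ) (Mathlib.Tactic.Linarith.sub_nonpos_of_le e3.left)])
    exact lt_of_mul_lt_mul_left e6 hs0.le
  · have e7 : ‖u' - x‖ ≤ η + 4 * s := by
      have e8 : ‖u' - u‖ = 1 - ‖u‖ := by
        have : u' - u = (1 - ‖u‖) • u' := by rw [sub_smul, one_smul, ← huu']
        rw [this, norm_smul, hu'1, mul_one, Real.norm_of_nonneg (by linarith only [hN1])]
      have e9 : ‖u - x‖ ≤ 2 * s := by
        have : u - x = s • (xj - x) := by rw [hu]; module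
        rw [this, norm_smul, Real.norm_of_nonneg hs0.le, mul_comm]
        have := norm_sub_le xj x
        gcongr; linarith only [hx, hxj, this]
      have := norm_sub_le_norm_sub_add_norm_sub u' u x
      linarith only [hN3, e8, e9, this]
    have e10 := hB.abs_le_left (u' - x) (hΦ1 φ hφ)
    rw [map_sub, LinearMap.sub_apply] at e10
    have e11 := hx'2 φ hφ
    have e12 : 16 * η / β = 4 * s := by rw [hs]; ring
    have := abs_sub_le (B x' φ) (B u' φ) (B x φ)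
    linarith only [hη, e7, e10, e11, e12, this]

theorem iterate (hB : Norming B) (hD : SuperDelta B) {κ : Type} [Fintype κ] (xs : κ → X)
    (hxs : ∀ i, ‖xs i‖ ≤ 1) (α : κ → ℝ) {β : ℝ} (hβ : 0 < β) {y₀ : Y} (hy₀ : ‖y₀‖ ≤ 1)
    (J : Finset κ) : ∀ η > 0, ∃ t > 0, ∀ (x₀ : X) (z : κ → Y), ‖x₀‖ ≤ 1 → (∀ i, ‖z i‖ ≤ 1) →
      (∀ i, 1 - t < B x₀ (z i)) → (∀ i, α i + β < B (xs i) (z i)) →
      ∃ (x : X) (γ : κ → Y), ‖x‖ ≤ 1 ∧ (∀ i, ‖γ i‖ ≤ 1) ∧
        (∀ i ∈ J, B x (γ i) < -1 + η ∧ α i < B (xs i) (γ i)) ∧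
        (∀ i, 1 - η < B x (z i)) ∧ B x₀ y₀ - η < B x y₀ := by
  classical
  induction J using Finset.induction_on with
  | empty =>
    intro η hη
    exact ⟨η, hη, fun x₀ z hx₀ _ h1 _ => ⟨x₀, 0, hx₀, by simp, by simp, h1, by linarith⟩⟩
  | insert j J hj ih =>
    intro η hη
    obtain ⟨η', h0, h1, h2, h3⟩ : ∃ η' > 0, η' ≤ 1 / 4 ∧ 16 * η' ≤ β ∧
        3 * η' + 16 * η' / β ≤ η := by
      refine ⟨min (min (1 / 4) (β / 16)) (η / (3 + 16 / β)), by positivity,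
        (min_le_left _ _).trans (min_le_left _ _), ?_, ?_⟩
      · have := (min_le_left (min (1 / 4) (β / 16)) (η / (3 + 16 / β))).trans (min_le_right _ _)
        linarith only [this]
      · have := min_le_right (min (1 / 4) (β / 16)) (η / (3 + 16 / β))
        rw [le_div_iff₀ (by positivity)] at this
        refine le_of_eq_of_le ?_ this
        ring
    obtain ⟨t, ht, H⟩ := ih η' h0
    refine ⟨t, ht, fun x₀ z hx₀ hz h4 h5 => ?_⟩
    obtain ⟨x, γ, hx, hγ, h6, h7, h8⟩ := H x₀ z hx₀ hz h4 h5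
    obtain ⟨x', γ', hx', hγ', h9, h10, h11⟩ := one_step hB hD hx (hxs j) (hz j) h0 hβ h1 h2
      (h7 j) (h5 j) (insert y₀ (range z ∪ range γ))
      (((finite_range z).union (finite_range γ)).insert y₀) (by
        rintro φ (rfl | ⟨i, rfl⟩ | ⟨i, rfl⟩)
        exacts [hy₀, hz i, hγ i])
    have hpos : 0 ≤ 16 * η' / β := by positivity
    refine ⟨x', Function.update γ j γ', hx', fun i => ?_, fun i hi => ?_, fun i => ?_, ?_⟩
    · by_cases hij : i = j
      · subst hij; simpa using hγ'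
      · simpa [hij] using hγ i
    · by_cases hij : i = j
      · subst hij
        simp only [Function.update_self]
        exact ⟨by linarith only [h0, h3, h9, hpos], h10⟩
      · have hiJ : i ∈ J := (Finset.mem_insert.1 hi).resolve_left hij
        simp only [Function.update_of_ne hij]
        have := (abs_lt.1 (h11 (γ i) (Or.inr (Or.inr ⟨i, rfl⟩)))).2
        exact ⟨by linarith only [h3, this, h6, hiJ, (h6 i hiJ).1], (h6 i hiJ).2⟩
    · have := (abs_lt.1 (h11 (z i) (Or.inr (Or.inl ⟨i, rfl⟩)))).1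
      linarith only [h3, this, h7, h7 i]
    · have := (abs_lt.1 (h11 y₀ (Or.inl rfl))).1
      linarith only [h3, h8, this]

end Pool.Agent.Work.MP_914893_an
end

-- merged part: Pool.Agent.Work.MP_914893_an.Main
section
/-! The diametral property passes from one space of a norming pair to the other. -/

open Set Metric

namespace Pool.Agent.Work.MP_914893_an

variable {X Y : Type*} [NormedAddCommGroup X] [NormedSpace ℝ X] [NormedAddCommGroup Y]
  [NormedSpace ℝ Y] {B : X →ₗ[ℝ] Y →ₗ[ℝ] ℝ}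

section Coord

variable {ι : Type*} [Fintype ι] [DecidableEq ι] (B) (e : ι → X)

/-- Evaluation of an element of `Y` on finitely many vectors of `X`. -/
def evalMap : Y →ₗ[ℝ] (ι → ℝ) := LinearMap.pi fun j => B (e j)

/-- The vector of `X` representing a functional on the coordinate space. -/
def vecOf (a : StrongDual ℝ (ι → ℝ)) : X := ∑ j, a (Pi.single j 1) • e j

theorem vecOf_spec (a : StrongDual ℝ (ι → ℝ)) (y : Y) :
    B (vecOf e a) y = a (evalMap B e y) := by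
  rw [vecOf, map_sum, LinearMap.sum_apply]
  conv_rhs => rw [pi_eq_sum_univ' (evalMap B e y), map_sum]
  refine Finset.sum_congr rfl fun j _ => ?_
  simp [evalMap, mul_comm]

end Coord

theorem exists_max (B : X →ₗ[ℝ] Y →ₗ[ℝ] ℝ) {ι : Type*} [Fintype ι] (e : ι → X) (y₀ : Y) :
    ∃ c : ι → ℝ, ‖∑ j, c j • e j‖ ≤ 1 ∧
      ∀ d : ι → ℝ, B (∑ j, d j • e j) y₀ ≤ B (∑ j, c j • e j) y₀ * ‖∑ j, d j • e j‖ := by
  let E := Submodule.span ℝ (range e)
  have : FiniteDimensional ℝ E := FiniteDimensional.span_of_finite ℝ (finite_range e)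
  have : ProperSpace E := FiniteDimensional.proper ℝ E
  let f : E →ₗ[ℝ] ℝ := (B.flip y₀).comp E.subtype
  have hf : Continuous f := f.continuous_of_finiteDimensional
  obtain ⟨x₀, hx₀, hmax⟩ := (isCompact_closedBall (0 : E) 1).exists_isMaxOn
    ⟨0, by simp⟩ hf.continuousOn
  obtain ⟨c, hc⟩ := (Submodule.mem_span_range_iff_exists_fun ℝ).1 x₀.2
  rw [mem_closedBall_zero_iff] at hx₀
  refine ⟨c, by rw [hc]; exact hx₀, fun d => ?_⟩
  rw [hc]
  let v : E := ⟨∑ j, d j • e j, (Submodule.mem_span_range_iff_exists_fun ℝ).2 ⟨d, rfl⟩⟩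
  change f v ≤ f x₀ * ‖v‖
  rcases eq_or_ne v 0 with h0 | h0
  · simp [h0]
  · have h1 : f (‖v‖⁻¹ • v) ≤ f x₀ :=
      hmax (mem_closedBall_zero_iff.2 (norm_smul_inv_norm h0).le)
    rw [map_smul, smul_eq_mul, inv_mul_le_iff₀ (norm_pos_iff.2 h0), mul_comm] at h1
    exact h1

theorem SuperDelta.flip (hB : Norming B) (hD : SuperDelta B) : SuperDelta B.flip := by
  classical
  intro y₀ hy₀ s hs σ hσ
  obtain ⟨M, hM0, hM⟩ : ∃ M : ℝ, 1 ≤ M ∧ ∀ x ∈ s, ‖x‖ ≤ M := by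
    obtain ⟨M, hM⟩ := hs.isBounded.exists_norm_le
    exact ⟨max M 1, le_max_right _ _, fun x hx => (hM x hx).trans (le_max_left _ _)⟩
  obtain ⟨τ, hτ, hτ1, hτσ⟩ : ∃ τ > 0, τ ≤ 1 / 2 ∧ 4 * M * τ ≤ σ := by
    refine ⟨min (1 / 2) (σ / (4 * M)), by positivity, min_le_left _ _, ?_⟩
    have := min_le_right (1 / 2) (σ / (4 * M))
    rw [le_div_iff₀ (by positivity)] at this
    linarith only [this]
  obtain ⟨xt, hxt1, hxt2⟩ := hB.right y₀ τ hτ
  rw [hy₀] at hxt2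
  have : Fintype s := hs.fintype
  let e : Option s → X := fun j => j.elim xt Subtype.val
  have he : ∀ j, ‖e j‖ ≤ M := by
    rintro (_ | j)
    · exact hxt1.trans hM0
    · exact hM _ j.2
  let T := evalMap B e
  have hT : ∀ y, ‖y‖ ≤ 1 → ‖T y‖ ≤ M := fun y hy =>
    (pi_norm_le_iff_of_nonneg (by linarith only [hM0, hτ, hτ1])).2 fun j => (hB.abs_le_left (e j) hy).trans (he j)
  let K := closure (T '' closedBall 0 1)
  have hKc : IsCompact K := by
    refine Bornology.IsBounded.isCompact_closure (isBounded_iff_forall_norm_le.2 ⟨M, ?_⟩)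
    rintro _ ⟨y, hy, rfl⟩
    exact hT y (mem_closedBall_zero_iff.1 hy)
  have hK : Convex ℝ K := ((convex_closedBall 0 1).linear_image T).closure
  have hTK : ∀ y, ‖y‖ ≤ 1 → T y ∈ K := fun y hy =>
    subset_closure ⟨y, mem_closedBall_zero_iff.2 hy, rfl⟩
  obtain ⟨c₀, hx₀, hmax⟩ := exists_max B e y₀
  set x₀ := ∑ j, c₀ j • e j with hx₀def
  set c := B x₀ y₀ with hc
  have hc1 : c ≤ 1 := (le_abs_self _).trans (hB.abs_le_one hx₀ hy₀.le)
  have hc2 : 1 - τ < c := by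
    have h1 := hmax (Pi.single none 1)
    have h2 : ∑ j, (Pi.single none 1 : Option s → ℝ) j • e j = xt := by
      simp [Pi.single_apply, e]
    rw [h2] at h1
    have h3 : 0 < c * ‖xt‖ := by linarith only [hτ, hτ1, hxt2, h1]
    have h4 : 0 < c := by
      by_contra hneg
      linarith only [hτ1, h1, hτ, hxt2, hneg, norm_nonneg xt, mul_pos_of_neg_of_neg (Mathlib.Tactic.Linarith.sub_neg_of_lt hτ) (Mathlib.Tactic.Linarith.sub_neg_of_lt hτ), mul_nonneg_of_nonpos_of_nonpos (le_of_lt (Mathlib.Tactic.Linarith.sub_neg_of_lt hτ)) (Mathlib.Tactic.Linarith.sub_nonpos_of_le hτ1), mul_pos_of_neg_of_neg (Mathlib.Tactic.Linarith.sub_neg_of_lt hτ) (Mathlib.Tactic.Linarith.sub_neg_of_lt hxt2), mul_nonneg_of_nonpos_of_nonpos (Mathlib.Tactic.Linarith.sub_nonpos_of_le hτ1) (le_of_lt (Mathlib.Tactic.Linarith.sub_neg_of_lt hxt2)), mul_nonneg_of_nonpos_of_nonpos (Mathlib.Tactic.Linarith.sub_nonpos_of_le (le_of_not_gt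 hneg)) (Mathlib.Tactic.Linarith.sub_nonpos_of_le (norm_nonneg xt))]
    linarith only [h1, hτ, hxt2, hτ1, hxt1, h4, mul_pos_of_neg_of_neg (Mathlib.Tactic.Linarith.sub_neg_of_lt hτ) (Mathlib.Tactic.Linarith.sub_neg_of_lt hxt2), mul_nonneg_of_nonpos_of_nonpos (Mathlib.Tactic.Linarith.sub_nonpos_of_le hτ1) (le_of_lt (Mathlib.Tactic.Linarith.sub_neg_of_lt hxt2)), mul_nonneg_of_nonpos_of_nonpos (Mathlib.Tactic.Linarith.sub_nonpos_of_le hxt1) (le_of_lt (Mathlib.Tactic.Linarith.sub_neg_of_lt h4))]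
  have hc0 : 0 < c := by linarith only [hτ, hτ1, hc2]
  let a₀ : StrongDual ℝ (Option s → ℝ) := ∑ j, c₀ j • ContinuousLinearMap.proj j
  have ha₀ : ∀ y, a₀ (T y) = B x₀ y := fun y => by
    simp [a₀, T, evalMap, hx₀def]
  have ha₀K : ∀ k ∈ K, a₀ k ≤ 1 := by
    refine closure_minimal (t := {k | a₀ k ≤ 1}) ?_ (isClosed_le a₀.continuous continuous_const)
    rintro _ ⟨y, hy, rfl⟩
    rw [mem_ofPred_eq, ha₀]
    exact (le_abs_self _).trans (hB.abs_le_one hx₀ (mem_closedBall_zero_iff.1 hy))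
  set q := c⁻¹ • T y₀ with hq
  have hqK : q ∈ K := by
    by_contra hcon
    obtain ⟨a, u, h1, h2⟩ := geometric_hahn_banach_closed_point hK isClosed_closure hcon
    have h3 : ‖vecOf e a‖ ≤ u := by
      refine le_of_forall_pos_lt_add fun δ hδ => ?_
      obtain ⟨y, hy1, hy2⟩ := hB.left (vecOf e a) δ hδ
      rw [vecOf_spec] at hy2
      linarith only [hy2, h1, hTK, hy1, h1 _ (hTK y hy1)]
    have h4 : B (vecOf e a) y₀ ≤ c * ‖vecOf e a‖ := hmax _
    rw [hq, map_smul, smul_eq_mul, ← vecOf_spec B e a, lt_inv_mul_iff₀ hc0] at h2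
    linarith only [h3, h4, hτ, h2, hτ1, hc2, mul_pos_of_neg_of_neg (Mathlib.Tactic.Linarith.sub_neg_of_lt hτ) (Mathlib.Tactic.Linarith.sub_neg_of_lt h2), mul_nonneg_of_nonpos_of_nonpos (Mathlib.Tactic.Linarith.sub_nonpos_of_le hτ1) (le_of_lt (Mathlib.Tactic.Linarith.sub_neg_of_lt h2)), mul_nonneg_of_nonpos_of_nonpos (Mathlib.Tactic.Linarith.sub_nonpos_of_le hτ1) (Mathlib.Tactic.Linarith.sub_nonpos_of_le h3), mul_nonneg_of_nonpos_of_nonpos (le_of_lt (Mathlib.Tactic.Linarith.sub_neg_of_lt hc2)) (Mathlib.Tactic.Linarith.sub_nonpos_of_le h3)]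
  have ha₀q : a₀ q = 1 := by
    rw [hq, map_smul, ha₀, smul_eq_mul, inv_mul_cancel₀ hc0.ne']
  obtain ⟨κ, _, w, h, a, α, hw0, hw1, hhK, hh₀, hdist, hα, hslice⟩ :=
    exists_slices hKc hK a₀ hqK (fun k hk => by rw [ha₀q]; exact ha₀K k hk) hτ
  rw [ha₀q] at hh₀
  let r : κ → ℝ := fun i => (‖vecOf e (a i)‖ + 1)⁻¹
  have hr : ∀ i, 0 < r i := fun i => by positivity
  let xs : κ → X := fun i => r i • vecOf e (a i)
  have hxs : ∀ i, ‖xs i‖ ≤ 1 := fun i => by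
    rw [norm_smul, Real.norm_of_nonneg (hr i).le, inv_mul_le_iff₀ (by positivity)]
    linarith only [hτ, hτ1]
  have hxsB : ∀ i y, B (xs i) y = r i * a i (T y) := fun i y => by
    rw [← vecOf_spec B e (a i)]; simp [xs]
  obtain ⟨β, hβ, hβ'⟩ : ∃ β > 0, ∀ i, r i * α i + β < r i * a i (h i) := by
    have h1 : ∀ i, ∀ᶠ β in nhdsWithin (0 : ℝ) (Ioi 0), r i * α i + β < r i * a i (h i) := by
      intro i
      refine mem_nhdsWithin_of_mem_nhds ?_
      refine (isOpen_lt (by fun_prop) continuous_const).mem_nhds ?_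
      simpa using mul_lt_mul_of_pos_left (hα i) (hr i)
    obtain ⟨β, h2, h3⟩ := ((Filter.eventually_all.2 h1).and self_mem_nhdsWithin).exists
    exact ⟨β, h3, h2⟩
  obtain ⟨t, ht, H⟩ := iterate hB hD xs hxs (fun i => r i * α i) hβ hy₀.le Finset.univ τ hτ
  have hz : ∀ i, ∃ z : Y, ‖z‖ ≤ 1 ∧ 1 - t < B x₀ z ∧ r i * α i + β < B (xs i) z := by
    intro i
    have hopen : IsOpen {k : Option s → ℝ | 1 - t < a₀ k ∧ r i * α i + β < r i * a i k} :=
      (isOpen_lt continuous_const a₀.continuous).inter 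
        (isOpen_lt continuous_const (continuous_const.mul (a i).continuous))
    obtain ⟨_, ⟨h1, h2⟩, y, hy, rfl⟩ := _root_.mem_closure_iff.1 (hhK i) _ hopen
      ⟨by linarith only [ht, hh₀, hh₀ i], hβ' i⟩
    exact ⟨y, mem_closedBall_zero_iff.1 hy, by rwa [← ha₀], by rwa [hxsB]⟩
  choose z hz1 hz2 hz3 using hz
  obtain ⟨x, γ, hx, hγ, h1, -, h2⟩ := H x₀ z hx₀ hz1 hz2 hz3
  have hγ' : ∀ i, dist (T (γ i)) (h i) < τ := fun i => by
    refine hslice i _ (hTK _ (hγ i)) ?_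
    have := (h1 i (Finset.mem_univ i)).2
    rw [hxsB] at this
    exact lt_of_mul_lt_mul_left this (hr i).le
  set g := ∑ i, w i • γ i with hg
  have hg1 : ‖g‖ ≤ 1 := by
    refine (norm_sum_le _ _).trans ?_
    rw [← hw1]
    refine Finset.sum_le_sum fun i _ => ?_
    rw [norm_smul, Real.norm_of_nonneg (hw0 i)]
    exact mul_le_of_le_one_right (hw0 i) (hγ i)
  refine ⟨g, hg1, fun v hv => ?_, ?_⟩
  · have e1 : ‖T g - ∑ i, w i • h i‖ ≤ τ := by
      rw [hg, map_sum, ← Finset.sum_sub_distrib]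
      refine (norm_sum_le _ _).trans ?_
      calc ∑ i, ‖T (w i • γ i) - w i • h i‖ ≤ ∑ i, w i * τ := by
            refine Finset.sum_le_sum fun i _ => ?_
            rw [map_smul, ← smul_sub, norm_smul, Real.norm_of_nonneg (hw0 i), ← dist_eq_norm]
            exact mul_le_mul_of_nonneg_left (hγ' i).le (hw0 i)
        _ = τ := by rw [← Finset.sum_mul, hw1, one_mul]
    have e2 : ‖q - T y₀‖ ≤ 2 * τ * M := by
      have e3 : q - T y₀ = (c⁻¹ - 1) • T y₀ := by rw [hq, sub_smul, one_smul]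
      have e4 : 0 ≤ c⁻¹ - 1 := sub_nonneg.2 ((one_le_inv₀ hc0).2 hc1)
      have e5 : c⁻¹ - 1 ≤ 2 * τ := by
        rw [sub_le_iff_le_add, inv_le_iff_one_le_mul₀ hc0]
        linarith only [hc2, hτ, hτ1, mul_nonneg_of_nonpos_of_nonpos (le_of_lt (Mathlib.Tactic.Linarith.sub_neg_of_lt hτ)) (Mathlib.Tactic.Linarith.sub_nonpos_of_le hτ1), mul_pos_of_neg_of_neg (Mathlib.Tactic.Linarith.sub_neg_of_lt hτ) (Mathlib.Tactic.Linarith.sub_neg_of_lt hc2)]
      rw [e3, norm_smul, Real.norm_of_nonneg e4]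
      exact mul_le_mul e5 (hT y₀ hy₀.le) (norm_nonneg _) (by positivity)
    rw [dist_eq_norm] at hdist
    have e6 := norm_sub_le_norm_sub_add_norm_sub (T g) (∑ i, w i • h i) q
    have e7 := norm_sub_le_norm_sub_add_norm_sub (T g) q (T y₀)
    have e8 : |B v g - B v y₀| ≤ ‖T g - T y₀‖ := norm_le_pi_norm (T g - T y₀) (some ⟨v, hv⟩)
    change |B v g - B v y₀| < σ
    linarith only [hτσ, hdist, e1, e2, e6, e7, e8, hM0, hτ, mul_nonneg_of_nonpos_of_nonpos (Mathlib.Tactic.Linarith.sub_nonpos_of_le hM0) (le_of_lt (Mathlib.Tactic.Linarith.sub_neg_of_lt hτ))]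
  · have e1 : B x g ≤ -1 + τ := by
      rw [hg, map_sum]
      calc ∑ i, B x (w i • γ i) ≤ ∑ i, w i * (-1 + τ) := by
            refine Finset.sum_le_sum fun i _ => ?_
            rw [map_smul, smul_eq_mul]
            exact mul_le_mul_of_nonneg_left (h1 i (Finset.mem_univ i)).1.le (hw0 i)
        _ = -1 + τ := by rw [← Finset.sum_mul, hw1, one_mul]
    have e2 := (le_abs_self _).trans (hB.flip.abs_le_left (y₀ - g) hx)
    rw [LinearMap.flip_apply, map_sub] at e2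
    linarith only [hτ, hτσ, hc2, h2, e1, e2, hM0, mul_nonneg_of_nonpos_of_nonpos (Mathlib.Tactic.Linarith.sub_nonpos_of_le hM0) (le_of_lt (Mathlib.Tactic.Linarith.sub_neg_of_lt hτ))]

end Pool.Agent.Work.MP_914893_an
end

-- merged part: Pool.Agent.Work.MP_914893_an.Final
section
/-! Translation between the topological definitions and the pairing formulation. -/

open Set Metric

namespace Pool.Agent.Work.MP_914893_an

section Weak

variable {E F : Type*} [AddCommGroup E] [Module ℝ E] [AddCommGroup F] [Module ℝ F]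
  (B : E →ₗ[ℝ] F →ₗ[ℝ] ℝ)

theorem exists_basic {U : Set (WeakBilin B)} (hU : IsOpen U) {x : WeakBilin B} (hx : x ∈ U) :
    ∃ s : Set F, s.Finite ∧ ∃ σ > 0, ∀ x' : WeakBilin B,
      (∀ y ∈ s, |B x' y - B x y| < σ) → x' ∈ U := by
  obtain ⟨V, hV, rfl⟩ := isOpen_induced_iff.1 hU
  obtain ⟨I, u, hu, hsub⟩ := isOpen_pi_iff.1 hV _ hx
  have h1 : ∀ y ∈ I, ∀ᶠ σ in nhdsWithin (0 : ℝ) (Ioi 0), ball (B x y) σ ⊆ u y := by
    intro y hy
    obtain ⟨δ, hδ, h⟩ := Metric.isOpen_iff.1 (hu y hy).1 _ (hu y hy).2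
    filter_upwards [mem_nhdsWithin_of_mem_nhds (Iio_mem_nhds hδ)] with σ hσ
    exact (ball_subset_ball (le_of_lt hσ)).trans h
  obtain ⟨σ, h2, h3⟩ := (((Filter.eventually_all_finset I).2 h1).and self_mem_nhdsWithin).exists
  exact ⟨I, I.finite_toSet, σ, h3, fun x' hx' => hsub fun y hy => h2 y hy (hx' y hy)⟩

theorem isOpen_basic {s : Set F} (hs : s.Finite) (x : E) (σ : ℝ) :
    IsOpen {x' : WeakBilin B | ∀ y ∈ s, |B x' y - B x y| < σ} := by
  have : {x' : WeakBilin B | ∀ y ∈ s, |B x' y - B x y| < σ} =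
      ⋂ y ∈ s, {x' : WeakBilin B | |B x' y - B x y| < σ} := by
    ext; simp
  rw [this]
  exact hs.isOpen_biInter fun y _ => isOpen_lt
    (((WeakBilin.eval_continuous B y).sub continuous_const).abs) continuous_const

end Weak

theorem superDelta_iff {E F : Type*} [NormedAddCommGroup E] [NormedSpace ℝ E]
    [NormedAddCommGroup F] [NormedSpace ℝ F] (B : E →ₗ[ℝ] F →ₗ[ℝ] ℝ) :
    (∀ W : Set E, (∃ U : Set (WeakBilin B), IsOpen U ∧
        W = {x : E | ‖x‖ ≤ 1 ∧ (show WeakBilin B from x) ∈ U}) → W.Nonempty →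
      ∀ x ∈ W, ‖x‖ = 1 → ∀ ε : ℝ, 0 < ε → ∃ y ∈ W, ‖x - y‖ > 2 - ε) ↔ SuperDelta B := by
  constructor
  · intro h x hx s hs σ hσ
    have hxW : x ∈ {x' : E | ‖x'‖ ≤ 1 ∧ (show WeakBilin B from x') ∈
        {x' : WeakBilin B | ∀ y ∈ s, |B x' y - B x y| < σ}} :=
      ⟨hx.le, fun y _ => by simpa using hσ⟩
    obtain ⟨y, hy, hy'⟩ := h _ ⟨_, isOpen_basic B hs x σ, rfl⟩ ⟨x, hxW⟩ x hxW hx σ hσ
    exact ⟨y, hy.1, hy.2, hy'⟩
  · rintro h W ⟨U, hU, rfl⟩ - x hx hx1 ε hε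
    obtain ⟨s, hs, σ, hσ, hsub⟩ := exists_basic B hU hx.2
    obtain ⟨y, hy1, hy2, hy3⟩ := h x hx1 s hs (min σ ε) (lt_min hσ hε)
    refine ⟨y, ⟨hy1, hsub y fun z hz => (hy2 z hz).trans_le (min_le_left _ _)⟩, ?_⟩
    have := min_le_right σ ε
    linarith only [hy3, this]

variable (X : Type*) [NormedAddCommGroup X] [NormedSpace ℝ X]

theorem norming_dual : Norming (topDualPairing ℝ X) where
  le f x := (le_abs_self _).trans (f.le_opNorm x)
  left f σ hσ := by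
    rcases lt_or_ge (‖f‖ - σ) 0 with h | h
    · exact ⟨0, by simp, by simpa using h⟩
    · obtain ⟨x, hx1, hx2⟩ := f.exists_lt_apply_of_lt_opNorm (r := ‖f‖ - σ) (by linarith)
      rcases le_total 0 (f x) with h0 | h0
      · exact ⟨x, hx1.le, by rwa [Real.norm_of_nonneg h0] at hx2⟩
      · refine ⟨-x, by simpa using hx1.le, ?_⟩
        rw [Real.norm_of_nonpos h0] at hx2
        simpa using hx2
  right x σ hσ := by
    obtain ⟨f, hf1, hf2⟩ := exists_dual_vector'' ℝ x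
    refine ⟨f, hf1, ?_⟩
    change ‖x‖ - σ < f x
    rw [hf2]
    simpa using hσ

theorem dd2p_iff : DD2P X ↔ WeakStarDD2P X := by
  have h1 : DD2P X ↔ SuperDelta (topDualPairing ℝ X).flip := superDelta_iff _
  have h2 : WeakStarDD2P X ↔ SuperDelta (topDualPairing ℝ X) := superDelta_iff _
  rw [h1, h2]
  exact ⟨fun h => h.flip (norming_dual X).flip, fun h => h.flip (norming_dual X)⟩

end Pool.Agent.Work.MP_914893_an
end
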